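import Mathlib
import Pool.Agent.W981.Blk.Ranks

/-!
# A min-max theorem with bounded blocks for matrix spaces close to rank one spanned spaces

Let `K` be a field of characteristic different from two and `A_k` (`k ∈ σ`) finitely many `m × n`
matrices over `K` whose span has codimension at most `c` in a space spanned by matrices of rank at
most one.  For example this is so if `∑ (rank A_k - 1) ≤ c`.  Write `𝒜 U = ∑ A_k U` and
`L = ∑ x_k A_k`.  For all subspaces `U₁ ≤ U₂` of `K^n` one has

  `rank L ≤ n - dim U₂ + dim (L (U₂ ⊗ K(x)) + 𝒜 U₁ ⊗ K(x))`.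

We prove that equality holds for some pair with `dim U₂/U₁ ≤ 2c` and `dim 𝒜 U₂ / 𝒜 U₁ ≤ 3c`.  The
right hand side is `n - dim U₂ + dim 𝒜 U₁` plus the rank of the block of `L` which maps `U₂/U₁` to
`𝒜 U₂/𝒜 U₁`, so only a block of bounded size has to be understood.  For `c = 0` one has `U₁ = U₂`
and this is the theorem of Edmonds, Rado and Lovász.  In characteristic zero the rank of the block
can be found from the integer points `λ` with `∑ λ_k ≤ 2c`: for square matrices `det L = 0` if and
only if there is such a pair with `dim (A(λ) U₂ + 𝒜 U₁) < dim U₂` for all these `λ`, where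
`A(λ) = ∑ λ_k A_k`.

The proof: let `Z` be the kernel of `L` over `F = K(x)`, let `X = U₂` be the smallest subspace over
`K` with `Z ≤ X ⊗ F`, let `z ∈ Z` be generic and let `w` be a generic vector orthogonal to
`L (X ⊗ F)`.  Write `A_k = ∑ a_k(i) u_i v_iᵀ`.  Differentiating `L z = 0` and `w · L x = 0` twice
gives an antisymmetric pairing; on the other hand `(x, x') ↦ w · ∑ y_i (v_i · x') u_i` with
`y_i = α_i (v_i · x) / (v_i · z)` is symmetric.  Comparing the two one finds that the map
`x ↦ ((w · u_i) (v_i · x))_i` has rank at most `2c` on `X`.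
-/

set_option autoImplicit false

open MvPolynomial Matrix Module

namespace Pool.Agent.Results.MP_64d474_lc.BoundedBlocks

/-- The symbolic matrix `∑ k, x_k A_k` with entries in `K[x_k : k ∈ σ]`. -/
noncomputable def symbolicMatrix {K m n σ : Type*} [Field K] [Fintype σ]
    (A : σ → Matrix m n K) : Matrix m n (MvPolynomial σ K) :=
  ∑ k, (X k : MvPolynomial σ K) • (A k).map C

/-- The symbolic matrix over the field of rational functions. -/
noncomputable def symbolicMatrixF {K m n σ : Type*} [Field K] [Fintype σ]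
    (A : σ → Matrix m n K) : Matrix m n (FractionRing (MvPolynomial σ K)) :=
  (symbolicMatrix A).map (algebraMap (MvPolynomial σ K) (FractionRing (MvPolynomial σ K)))

/-- The generic rank: the rank over the field of rational functions. -/
noncomputable def genericRank {K m n σ : Type*} [Field K] [Fintype m] [Fintype n] [Fintype σ]
    (A : σ → Matrix m n K) : ℕ :=
  (symbolicMatrixF A).rank

/-- The subspace `∑ k, A_k U` of `K^m`. -/
noncomputable def imageSpace {K m n σ : Type*} [Field K] [Fintype n]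
    (A : σ → Matrix m n K) (U : Submodule K (n → K)) : Submodule K (m → K) :=
  ⨆ k, U.map (A k).mulVecLin

/-- The extension of scalars `W ⊗ K(x)` of a subspace `W` of `K^n`, a subspace of `K(x)^n`. -/
noncomputable def extendSpace {K n : Type*} (σ : Type*) [Field K] (W : Submodule K (n → K)) :
    Submodule (FractionRing (MvPolynomial σ K)) (n → FractionRing (MvPolynomial σ K)) :=
  Submodule.span (FractionRing (MvPolynomial σ K))
    ((fun (w : n → K) (i : n) => algebraMap K (FractionRing (MvPolynomial σ K)) (w i)) ''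
      (W : Set (n → K)))

/-- The dimension over `K(x)` of `L (U₂ ⊗ K(x)) + (𝒜 U₁) ⊗ K(x)`.  For `U₁ ≤ U₂` this is `dim 𝒜 U₁`
plus the rank of the map from `U₂/U₁ ⊗ K(x)` to `𝒜 U₂/𝒜 U₁ ⊗ K(x)` which is induced by `L`. -/
noncomputable def symbolicDim {K m n σ : Type*} [Field K] [Fintype m] [Fintype n] [Fintype σ]
    (A : σ → Matrix m n K) (U₁ U₂ : Submodule K (n → K)) : ℕ :=
  finrank (FractionRing (MvPolynomial σ K))
    ((extendSpace σ U₂).map (symbolicMatrixF A).mulVecLin ⊔ extendSpace σ (imageSpace A U₁) :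
      Submodule (FractionRing (MvPolynomial σ K)) (m → FractionRing (MvPolynomial σ K)))

/-- The dimension over `K` of `A(λ) U₂ + 𝒜 U₁`, where `A(λ) = ∑ λ_k A_k`. -/
noncomputable def pointDim {K m n σ : Type*} [Field K] [Fintype m] [Fintype n] [Fintype σ]
    (A : σ → Matrix m n K) (U₁ U₂ : Submodule K (n → K)) (lam : σ → ℕ) : ℕ :=
  finrank K (U₂.map (∑ k, (lam k : K) • A k).mulVecLin ⊔ imageSpace A U₁ : Submodule K (m → K))

/-- The span of the `A_k` is contained, with codimension at most `c`, in a space which is spanned by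
matrices of rank at most one. -/
def NearRankOneSpan {K m n σ : Type*} [Field K] [Fintype m] [Fintype n] (A : σ → Matrix m n K)
    (c : ℕ) : Prop :=
  ∃ R : Set (Matrix m n K), (∀ T ∈ R, T.rank ≤ 1) ∧ (∀ k, A k ∈ Submodule.span K R) ∧
    finrank K (Submodule.span K R) ≤ finrank K (Submodule.span K (Set.range A)) + c

/-- `U₁ ≤ U₂`, the space `U₂/U₁` has dimension at most `2c`, and the space `𝒜 U₂/𝒜 U₁` has
dimension at most `3c`. -/
def SmallPair {K m n σ : Type*} [Field K] [Fintype m] [Fintype n] (A : σ → Matrix m n K)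
    (c : ℕ) (U₁ U₂ : Submodule K (n → K)) : Prop :=
  U₁ ≤ U₂ ∧ finrank K U₂ ≤ finrank K U₁ + 2 * c ∧
    finrank K (imageSpace A U₂) ≤ finrank K (imageSpace A U₁) + 3 * c

theorem gen_eq {K m n σ : Type*} [Field K] [Fintype m]
    [Fintype n] [Fintype σ] (A : σ → Matrix m n K) : symbolicMatrixF A = W981.Hyp.gen A :=
  (W981.Hyp.gen_eq_sym A).symm

theorem symbolicDim_eq {K m n σ : Type*} [Field K] [Fintype m] [Fintype n] [Fintype σ]
    (A : σ → Matrix m n K) (U₁ U₂ : Submodule K (n → K)) : symbolicDim A U₁ U₂ =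
      finrank (W981.Hyp.FF σ K) ((W981.Hyp.ext (W981.Hyp.FF σ K) U₂).map
        (W981.Hyp.gen A).mulVecLin ⊔ W981.Hyp.ext (W981.Hyp.FF σ K) (W981.Hyp.im A U₁) :
        Submodule (W981.Hyp.FF σ K) (m → W981.Hyp.FF σ K)) := by
  rw [symbolicDim, gen_eq]
  rfl

theorem det_iff {K n σ : Type*} [Field K] [Fintype n] [DecidableEq n] [Fintype σ]
    (A : σ → Matrix n n K) : (symbolicMatrix A).det = 0 ↔ genericRank A < Fintype.card n := by
  rw [genericRank, ← W981.Hyp.det_eq_zero_iff_rank]
  have h1 : (symbolicMatrixF A).det =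
      algebraMap _ _ (symbolicMatrix A).det := (RingHom.map_det _ _).symm
  rw [h1, FaithfulSMul.algebraMap_eq_zero_iff]

theorem upper {K m n σ : Type*} [Field K] [Fintype m] [Fintype n] [Fintype σ]
    (A : σ → Matrix m n K) (U₁ U₂ : Submodule K (n → K)) :
    genericRank A + finrank K U₂ ≤ Fintype.card n + symbolicDim A U₁ U₂ := by
  classical
  rw [symbolicDim_eq, genericRank, gen_eq]
  exact W981.Blk.pair_upper A U₁ U₂

theorem lower {K m n σ : Type*} [Field K] (h2 : (2 : K) ≠ 0) [Fintype m] [Fintype n] [Fintype σ]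
    (A : σ → Matrix m n K) (c : ℕ) (h : NearRankOneSpan A c) :
    ∃ U₁ U₂ : Submodule K (n → K), SmallPair A c U₁ U₂ ∧
      genericRank A + finrank K U₂ = Fintype.card n + symbolicDim A U₁ U₂ := by
  classical
  obtain ⟨R, hR, hA, hc⟩ := h
  obtain ⟨U₁, U₂, h1, h2, h3, h4⟩ := W981.Blk.blocks A R hR hA c hc h2
  refine ⟨U₁, U₂, ⟨h1, h2, h3⟩, ?_⟩
  rw [symbolicDim_eq, genericRank, gen_eq]
  exact h4

theorem criterion {K n σ : Type*} [Field K] (h2 : (2 : K) ≠ 0) [Fintype n] [DecidableEq n]
    [Fintype σ] (A : σ → Matrix n n K) (c : ℕ) (h : NearRankOneSpan A c) :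
    (symbolicMatrix A).det = 0 ↔
      ∃ U₁ U₂ : Submodule K (n → K), SmallPair A c U₁ U₂ ∧ symbolicDim A U₁ U₂ < finrank K U₂ := by
  rw [det_iff]
  constructor
  · intro h3
    obtain ⟨U₁, U₂, h4, h5⟩ := lower h2 A c h
    exact ⟨U₁, U₂, h4, by omega⟩
  · rintro ⟨U₁, U₂, -, h4⟩
    have := upper A U₁ U₂
    omega

theorem points {K m n σ : Type*} [Field K] [CharZero K] [Fintype m] [Fintype n] [Fintype σ]
    (A : σ → Matrix m n K) (U₁ U₂ : Submodule K (n → K)) (h : U₁ ≤ U₂) :
    (∀ lam, pointDim A U₁ U₂ lam ≤ symbolicDim A U₁ U₂) ∧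
    ∃ lam : σ → ℕ, finrank K U₁ + ∑ k, lam k ≤ finrank K U₂ ∧
      pointDim A U₁ U₂ lam = symbolicDim A U₁ U₂ := by
  classical
  rw [symbolicDim_eq]
  exact ⟨fun lam => W981.Blk.blk_le A h _, W981.Blk.blk_point A h⟩

/-- **Result.**  Let `K` be a field of characteristic different from two.  (1) If the span of the
`A_k` has codimension at most `c` in a space spanned by matrices of rank at most one, then the
generic rank is the minimum of `n - dim U₂ + symbolicDim A U₁ U₂`, and it is attained for a pair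
`U₁ ≤ U₂` with `dim U₂/U₁ ≤ 2c` and `dim 𝒜 U₂/𝒜 U₁ ≤ 3c`.  (2) If `K` has characteristic zero and
the matrices are square, then `det ∑ x_k A_k = 0` if and only if there is such a pair with
`dim (A(λ) U₂ + 𝒜 U₁) < dim U₂` for all integer vectors `λ ≥ 0` with `∑ λ_k ≤ 2c`.  (3) The
hypothesis holds if `∑ (rank A_k - 1) ≤ c`. -/
theorem result {K : Type*} [Field K] (h2 : (2 : K) ≠ 0) :
    (∀ {m n σ : Type} [Fintype m] [Fintype n] [Fintype σ] (A : σ → Matrix m n K) (c : ℕ),
      NearRankOneSpan A c →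
      (∀ U₁ U₂ : Submodule K (n → K),
        genericRank A + finrank K U₂ ≤ Fintype.card n + symbolicDim A U₁ U₂) ∧
      ∃ U₁ U₂ : Submodule K (n → K), SmallPair A c U₁ U₂ ∧
        genericRank A + finrank K U₂ = Fintype.card n + symbolicDim A U₁ U₂) ∧
    (CharZero K → ∀ {n σ : Type} [Fintype n] [DecidableEq n] [Fintype σ] (A : σ → Matrix n n K)
      (c : ℕ), NearRankOneSpan A c → ((symbolicMatrix A).det = 0 ↔
        ∃ U₁ U₂ : Submodule K (n → K), SmallPair A c U₁ U₂ ∧
          ∀ lam : σ → ℕ, ∑ k, lam k ≤ 2 * c → pointDim A U₁ U₂ lam < finrank K U₂)) ∧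
    (∀ {m n σ : Type} [Fintype m] [Fintype n] [Fintype σ] (A : σ → Matrix m n K) (c : ℕ),
      ∑ k, ((A k).rank - 1) ≤ c → NearRankOneSpan A c) := by
  refine ⟨fun A c h => ⟨upper A, lower h2 A c h⟩, ?_, fun A c h => W981.Blk.near_of_ranks A c h⟩
  intro hK n σ _ _ _ A c h
  rw [criterion h2 A c h]
  constructor
  · rintro ⟨U₁, U₂, h3, h4⟩
    exact ⟨U₁, U₂, h3, fun lam _ => lt_of_le_of_lt ((points A U₁ U₂ h3.1).1 lam) h4⟩
  · rintro ⟨U₁, U₂, h3, h4⟩
    obtain ⟨lam, h5, h6⟩ := (points A U₁ U₂ h3.1).2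
    refine ⟨U₁, U₂, h3, ?_⟩
    rw [← h6]
    have h7 := h3.2.1
    exact h4 lam (by omega)

end Pool.Agent.Results.MP_64d474_lc.BoundedBlocks
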