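import Mathlib
import Pool.Agent.W943.Tw.T5

/-!
# Symbolic determinants and ranks for matrix spaces of bounded tree width in unknown coordinates

Let `A_0, …, A_{n-1}` be complex `N × N'` matrices. Suppose that in unknown linearly independent
linear forms the symbolic matrix `∑ x_k A_k` is `∑ L_t(x) B_t`, where the matrices `B_t` of unbounded
ranks are the leaves of an unknown tree such that the column spaces (and the row spaces) on the two
sides of each cut of the tree have a common part of dimension at most `w`. Then the maximal rank of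
the linear combinations is attained at one of `(nN)^{O_w(log n)}` explicit integer points. In
particular, this is a deterministic quasipolynomial black-box test for symbolic singularity.
-/

set_option autoImplicit false

namespace Pool.Agent.Results.MP_64d474_lc.BranchWidth

open MvPolynomial Pool.Agent.W943 Pool.Agent.W943.Tw Pool.Agent.W943.Cut

/-- The symbolic matrix `∑ x_k A_k` with integer coefficients. -/
noncomputable def symbolic {n N : ℕ} (A : Fin n → Matrix (Fin N) (Fin N) ℤ) :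
    Matrix (Fin N) (Fin N) (MvPolynomial (Fin n) ℤ) :=
  ∑ k, (X k : MvPolynomial (Fin n) ℤ) • (A k).map (C : ℤ → MvPolynomial (Fin n) ℤ)

/-- symbolic determinants with integer coefficients -/
theorem det_hit {n N b w k d : ℕ} (A : Fin n → Matrix (Fin N) (Fin N) ℤ)
    (hA : Hidden b w (fun k => (A k).map (Int.cast : ℤ → ℂ))) (hb : 3 * b ≤ 2 * (k + 1))
    (hn : 2 ^ d * n ≤ k * 3 ^ d) :
    (symbolic A).det ≠ 0 ↔
      ∃ p ∈ points n (k + (w.centralBinom - 1) * d) N, (∑ k, p k • A k).det ≠ 0 := by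
  classical
  have he : ∀ p : Fin n → ℤ, eval p (symbolic A).det = (∑ k, p k • A k).det := by
    intro p
    rw [RingHom.map_det]
    congr 1
    ext1 i j
    unfold symbolic
    simp only [RingHom.mapMatrix_apply, Matrix.map_apply, Matrix.sum_apply, Matrix.smul_apply,
      map_sum, smul_eq_mul, map_mul, eval_C, eval_X]
  have hc : ∀ p : Fin n → ℤ, ((∑ k, p k • A k).det : ℂ) =
      (∑ k, (p k : ℂ) • (A k).map (Int.cast : ℤ → ℂ)).det := by
    intro p
    have h1 := RingHom.map_det (Int.castRingHom ℂ) (∑ k, p k • A k)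
    rw [eq_intCast] at h1
    rw [h1]
    congr 1
    ext1 i j
    simp only [RingHom.mapMatrix_apply, Matrix.map_apply, Matrix.sum_apply, Matrix.smul_apply,
      map_sum, smul_eq_mul, map_mul, eq_intCast]
  constructor
  · intro h
    obtain ⟨q, hq⟩ : ∃ q : Fin n → ℤ,
        eval q (symbolic A).det ≠ 0 := by
      by_contra hcon
      push Not at hcon
      exact h (MvPolynomial.funext fun q => by rw [hcon q, map_zero])
    rw [he] at hq
    obtain ⟨p, hp, h1⟩ := rank_hit hA hb hn (D := N) (min_le_left _ _) (fun k => (q k : ℂ))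
    refine ⟨p, hp, ?_⟩
    have h2 : (∑ k, (q k : ℂ) • (A k).map (Int.cast : ℤ → ℂ)).det ≠ 0 := by
      rw [← hc q]
      exact_mod_cast hq
    rw [Matrix.rank_of_isUnit _ ((Matrix.isUnit_iff_isUnit_det _).2 (isUnit_iff_ne_zero.2 h2)),
      Fintype.card_fin] at h1
    intro h3
    have h4 : (∑ k, (p k : ℂ) • (A k).map (Int.cast : ℤ → ℂ)).det = 0 := by
      rw [← hc p, h3, Int.cast_zero]
    have h5 : (∑ k, (p k : ℂ) • (A k).map (Int.cast : ℤ → ℂ)).rank = N :=
      le_antisymm (Matrix.rank_le_height _) h1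
    have h7 : IsUnit (∑ k, (p k : ℂ) • (A k).map (Int.cast : ℤ → ℂ)) := by
      rw [← Matrix.linearIndependent_rows_iff_isUnit, linearIndependent_iff_card_eq_finrank_span]
      rw [Fintype.card_fin, Set.finrank, ← Matrix.rank_eq_finrank_span_row, h5]
    rw [Matrix.isUnit_iff_isUnit_det, h4] at h7
    exact not_isUnit_zero h7
  · rintro ⟨p, _, hp⟩ h
    apply hp
    rw [← he, h, map_zero]

theorem log_bound (b n : ℕ) (hb : 1 ≤ b) :
    2 ^ (2 * (Nat.log 2 n + 1)) * n ≤ 2 * b * 3 ^ (2 * (Nat.log 2 n + 1)) := by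
  have h1 : n < 2 ^ (Nat.log 2 n + 1) := Nat.lt_pow_succ_log_self (by norm_num) n
  have h2 : 2 ^ (2 * (Nat.log 2 n + 1)) * n ≤ 8 ^ (Nat.log 2 n + 1) := by
    calc 2 ^ (2 * (Nat.log 2 n + 1)) * n ≤ 2 ^ (2 * (Nat.log 2 n + 1)) * 2 ^ (Nat.log 2 n + 1) :=
          Nat.mul_le_mul_left _ h1.le
      _ = 8 ^ (Nat.log 2 n + 1) := by rw [pow_mul, ← mul_pow]; norm_num
  have h3 : 8 ^ (Nat.log 2 n + 1) ≤ 3 ^ (2 * (Nat.log 2 n + 1)) := by
    rw [pow_mul]
    exact Nat.pow_le_pow_left (by norm_num) _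
  calc 2 ^ (2 * (Nat.log 2 n + 1)) * n ≤ 3 ^ (2 * (Nat.log 2 n + 1)) := h2.trans h3
    _ = 1 * 3 ^ (2 * (Nat.log 2 n + 1)) := (one_mul _).symm
    _ ≤ _ := Nat.mul_le_mul_right _ (by omega)

/-- Let `3b ≤ 2(k+1)` and `2^d n ≤ k 3^d` (for instance `k = 2b` and `d = 2(⌊log₂ n⌋+1)`, see (5)),
and let `s = k + (C(2w,w) - 1) d`. The explicit set `points n s D` consists of at most
`((D+1)(nD+1))^s` integer points of polynomial bit length. (1) If the complex `N × N'` matrices
`A_0, …, A_{n-1}` are hidden of tree width at most `w` with leaves of size at most `b`, and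
`min N N' ≤ D`, then the maximal rank of a linear combination of these matrices is attained at a
point of the set. (2) If the integer `N × N` matrices `A_0, …, A_{n-1}` are hidden of tree width at
most `w` over the complex numbers, then `det (∑ x_k A_k)` is nonzero if and only if
`det (∑ p_k A_k) ≠ 0` for a point `p` of `points n s N`. (3) Matrices whose span has a basis of tree
width at most `w` satisfy the assumption. (4) If the matrices `B_s` have supports in `I_s × J_s`
such that at most `w` rows and at most `w` columns occur on both sides of each cut of a tree, then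
they have tree width at most `w`. -/
theorem result :
    (∀ n b w k d : ℕ, 3 * b ≤ 2 * (k + 1) → 2 ^ d * n ≤ k * 3 ^ d →
      (∀ D : ℕ,
        (points n (k + (w.centralBinom - 1) * d) D).card ≤
          ((D + 1) * (n * D + 1)) ^ (k + (w.centralBinom - 1) * d) ∧
        (∀ p ∈ points n (k + (w.centralBinom - 1) * d) D, ∀ i,
          |p i| ≤ (((k + (w.centralBinom - 1) * d) * D * (n * D + n) ^ (n - 1) : ℕ) : ℤ)) ∧
        ∀ (N N' : ℕ) (A : Fin n → Matrix (Fin N) (Fin N') ℂ), Hidden b w A → min N N' ≤ D →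
          ∀ q : Fin n → ℂ, ∃ p ∈ points n (k + (w.centralBinom - 1) * d) D,
            (∑ k, q k • A k).rank ≤ (∑ k, (p k : ℂ) • A k).rank) ∧
      (∀ (N : ℕ) (A : Fin n → Matrix (Fin N) (Fin N) ℤ),
        Hidden b w (fun k => (A k).map (Int.cast : ℤ → ℂ)) →
        ((symbolic A).det ≠ 0 ↔ ∃ p ∈ points n (k + (w.centralBinom - 1) * d) N,
          (∑ k, p k • A k).det ≠ 0))) ∧
    (∀ (n N N' R b w : ℕ) (A : Fin n → Matrix (Fin N) (Fin N') ℂ)
      (B : Fin R → Matrix (Fin N) (Fin N') ℂ), LinearIndependent ℂ B →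
      Submodule.span ℂ (Set.range A) = Submodule.span ℂ (Set.range B) → TreeWidth b w B →
      Hidden b w A) ∧
    (∀ (N N' R b w : ℕ) (B : Fin R → Matrix (Fin N) (Fin N') ℂ)
      (I : Fin R → Finset (Fin N)) (J : Fin R → Finset (Fin N')) (t : Tree R),
      (∀ s i j, B s i j ≠ 0 → i ∈ I s ∧ j ∈ J s) → t.set = Finset.univ →
      t.Good b (fun T => (T.biUnion I ∩ Tᶜ.biUnion I).card ≤ w ∧
        (T.biUnion J ∩ Tᶜ.biUnion J).card ≤ w) → TreeWidth b w B) ∧
    (∀ b n : ℕ, 1 ≤ b → 3 * b ≤ 2 * (2 * b + 1) ∧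
      2 ^ (2 * (Nat.log 2 n + 1)) * n ≤ 2 * b * 3 ^ (2 * (Nat.log 2 n + 1))) :=
  ⟨fun n _ _ _ _ hb hn => ⟨fun D => ⟨Pool.Agent.H530R2.hitSet_card n _ D,
    fun p hp i => Pool.Agent.H530R2.hitSet_bound n _ D p hp i,
    fun _ _ _ hA hD q => rank_hit hA hb hn hD q⟩, fun _ A hA => det_hit A hA hb hn⟩,
    fun _ _ _ _ _ _ A B h1 h2 h3 => hidden_of_basis A B h1 h2 h3,
    fun _ _ _ _ _ B I J t h1 h2 h3 => ⟨t, h2, h3.mono' fun T _ h =>
      cut_of_support B I J h1 T h.1 h.2⟩,
    fun b n hb => ⟨by omega, log_bound b n hb⟩⟩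

end Pool.Agent.Results.MP_64d474_lc.BranchWidth
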