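import Mathlib
import Pool.Agent.W943.Nis6

/-!
# Symbolic determinants and ranks for matrix spaces of bounded linear width in unknown coordinates

Let `A_1, …, A_n` be complex `N × N'` matrices. Suppose that their span has a basis `B_1, …, B_R`
(unknown, over the complex numbers) such that for all `t` the intersections of
`Im B_1 + ⋯ + Im B_t` with `Im B_{t+1} + ⋯ + Im B_R`, and the same intersections for the transposed
matrices, have dimension at most `w`. There is no bound for the ranks of the matrices. Then the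
maximal rank of the linear combinations `∑ x_k A_k` is attained at one of `(nN)^{O_w(1)}` explicit
integer points `x`. In particular, this is a deterministic polynomial time black-box test for
symbolic singularity.
-/

namespace Pool.Agent.Results.MP_64d474_lc.HiddenLinearWidth

open MvPolynomial

/-- All cuts of the sequence of subspaces `S_0, …, S_{R-1}` have dimension at most `w`: the
intersection of `S_0 + ⋯ + S_{t-1}` with `S_t + ⋯ + S_{R-1}` has dimension at most `w` for all
`t`. -/
def Cuts {N R : ℕ} (w : ℕ) (S : Fin R → Submodule ℂ (Fin N → ℂ)) : Prop :=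
  ∀ t : ℕ, Module.finrank ℂ ↥((⨆ s : Fin R, ⨆ _ : s.val < t, S s) ⊓
    (⨆ s : Fin R, ⨆ _ : t ≤ s.val, S s)) ≤ w

/-- The sequence of matrices `B_0, …, B_{R-1}` has linear width at most `w`: all cuts of the
sequences of the column spaces and of the row spaces have dimension at most `w`. -/
def LinWidth {N N' R : ℕ} (w : ℕ) (B : Fin R → Matrix (Fin N) (Fin N') ℂ) : Prop :=
  Cuts w (fun s => LinearMap.range (B s).mulVecLin) ∧
    Cuts w (fun s => LinearMap.range (B s).transpose.mulVecLin)

/-- `Narrow w A`: in unknown linearly independent linear forms `L_0, …, L_{m-1}` the symbolic matrix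
`∑ x_k A_k` is `∑_t L_{a t}(x) B_t` where `B_0, …, B_{R-1}` has linear width at most `w` and every
linear form is used at most `w` times. -/
def Narrow {N N' n : ℕ} (w : ℕ) (A : Fin n → Matrix (Fin N) (Fin N') ℂ) : Prop :=
  ∃ (m R : ℕ) (a : Fin R → Fin m) (B : Fin R → Matrix (Fin N) (Fin N') ℂ)
    (L : Fin m → Fin n → ℂ), LinearIndependent ℂ L ∧
    (∀ j, (Finset.univ.filter fun t => a t = j).card ≤ w) ∧ LinWidth w B ∧
    ∀ k, A k = ∑ t, L (a t) k • B t

/-- The point with seeds `y, z ∈ ℕ^s`: its `i`-th coordinate is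
`∑_l y_l ∏_{k ≠ i} (z_l - k)` (the Shpilka–Volkovich generator with nodes `0, …, n-1`). -/
def point (n s : ℕ) (y z : Fin s → ℕ) : Fin n → ℤ :=
  fun i => ∑ l : Fin s, (y l : ℤ) * ∏ k ∈ Finset.univ.erase i, ((z l : ℤ) - (k.val : ℤ))

/-- The explicit set of all points with seeds `y ∈ {0,…,d}^s`, `z ∈ {0,…,nd}^s`. -/
def points (n s d : ℕ) : Finset (Fin n → ℤ) :=
  ((Fintype.piFinset fun _ : Fin s => Finset.range (d + 1)) ×ˢ
    (Fintype.piFinset fun _ : Fin s => Finset.range (n * d + 1))).image
    fun yz => point n s yz.1 yz.2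

/-- The symbolic matrix `∑ x_k A_k` with integer coefficients. -/
noncomputable def symbolic {n N : ℕ} (A : Fin n → Matrix (Fin N) (Fin N) ℤ) :
    Matrix (Fin N) (Fin N) (MvPolynomial (Fin n) ℤ) :=
  ∑ k, (X k : MvPolynomial (Fin n) ℤ) • (A k).map (C : ℤ → MvPolynomial (Fin n) ℤ)

open Pool.Agent.W943

/-- the linear forms as polynomials -/
noncomputable def form {m n : ℕ} (L : Fin m → Fin n → ℂ) (j : Fin m) : MvPolynomial (Fin n) ℂ :=
  ∑ k, C (L j k) * X k

theorem eval_form {m n : ℕ} (L : Fin m → Fin n → ℂ) (j : Fin m) (q : Fin n → ℂ) :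
    eval q (form L j) = ∑ k, L j k * q k := by
  simp [form]

theorem totalDegree_form {m n : ℕ} (L : Fin m → Fin n → ℂ) (j : Fin m) :
    (form L j).totalDegree ≤ 1 := by
  refine totalDegree_finsetSum_le fun k _ => ?_
  refine (totalDegree_mul _ _).trans ?_
  rw [totalDegree_C, totalDegree_X, zero_add]

theorem totalDegree_det {n r : ℕ} (Z : Matrix (Fin r) (Fin r) (MvPolynomial (Fin n) ℂ))
    (h : ∀ i j, (Z i j).totalDegree ≤ 1) : Z.det.totalDegree ≤ r := by
  rw [Matrix.det_apply']
  refine totalDegree_finsetSum_le fun σ _ => ?_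
  refine (totalDegree_mul _ _).trans ?_
  have h1 : ((((Equiv.Perm.sign σ : ℤˣ) : ℤ)) : MvPolynomial (Fin n) ℂ).totalDegree = 0 := by
    rw [show ((((Equiv.Perm.sign σ : ℤˣ) : ℤ)) : MvPolynomial (Fin n) ℂ) =
      C (((Equiv.Perm.sign σ : ℤˣ) : ℤ) : ℂ) by simp, totalDegree_C]
  rw [h1, zero_add]
  refine (totalDegree_finsetProd _ _).trans ?_
  refine (Finset.sum_le_sum fun i _ => h (σ i) i).trans ?_
  simp

theorem totalDegree_combo {m n N N' R : ℕ} (L : Fin m → Fin n → ℂ) (a : Fin R → Fin m)
    (B : Fin R → Matrix (Fin N) (Fin N') ℂ) (i : Fin N) (j : Fin N') :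
    (Nis.combo (fun t => form L (a t)) B i j).totalDegree ≤ 1 := by
  unfold Nis.combo
  rw [Matrix.sum_apply]
  refine totalDegree_finsetSum_le fun t _ => ?_
  rw [Matrix.smul_apply, Matrix.map_apply, smul_eq_mul]
  refine (totalDegree_mul _ _).trans ?_
  rw [totalDegree_C, add_zero]
  exact totalDegree_form L _

theorem eval_combo {m n N R : ℕ} (L : Fin m → Fin n → ℂ) (a : Fin R → Fin m)
    (B : Fin R → Matrix (Fin N) (Fin N) ℂ) (q : Fin n → ℂ) :
    eval q (Nis.combo (fun t => form L (a t)) B).det =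
      (∑ t, (∑ k, L (a t) k * q k) • B t).det := by
  rw [RingHom.map_det]
  congr 1
  ext1 i j
  unfold Nis.combo
  simp only [RingHom.mapMatrix_apply, Matrix.map_apply, Matrix.sum_apply, Matrix.smul_apply,
    map_sum, smul_eq_mul, map_mul, eval_C, eval_form]

theorem one_notMem {n : ℕ} (V : DChain ℂ n) (j : ℕ) : (1 : MvPolynomial (Fin n) ℂ) ∉ V.I j := by
  intro h
  exact (V.prime j).ne_top ((Ideal.eq_top_iff_one _).2 h)

/-- hitting the determinants -/
theorem hit {m n r R w d : ℕ} (L : Fin m → Fin n → ℂ) (hL : LinearIndependent ℂ L)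
    (a : Fin R → Fin m) (ha : ∀ j, (Finset.univ.filter fun t => a t = j).card ≤ w)
    (B : Fin R → Matrix (Fin r) (Fin r) ℂ) (hB : Nis.LinWidth w B) (hr : r ≤ d)
    (h0 : (Nis.combo (fun t => form L (a t)) B).det ≠ 0) :
    ∃ p ∈ points n (Nis.sd ℂ w w) d,
      eval (fun i => (p i : ℂ)) (Nis.combo (fun t => form L (a t)) B).det ≠ 0 := by
  classical
  have hd : ∀ i : Fin m, ∃ d : Fin n → ℂ, ∀ k, L k ⬝ᵥ d = if i = k then 1 else 0 :=
    fun i => Pool.Agent.H530R2.exists_dual L hL _
  choose e he using hd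
  have hE : ∀ i k, ∑ l, (C (e i l) : MvPolynomial (Fin n) ℂ) *
      pderiv l (form L k) = if i = k then 1 else 0 := by
    intro i k
    have h1 : ∀ l, pderiv l (form L k) = C (L k l) := by
      intro l
      rw [form, map_sum, Finset.sum_eq_single l]
      · rw [pderiv_C_mul, pderiv_X_self, mul_one]
      · intro l' _ hl'
        rw [pderiv_C_mul, pderiv_X_of_ne hl', mul_zero]
      · intro h; exact absurd (Finset.mem_univ _) h
    simp only [h1, ← map_mul, ← map_sum]
    have h2 : ∑ l, e i l * L k l = if i = k then 1 else 0 := by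
      rw [← he i k, dotProduct]
      exact Finset.sum_congr rfl fun l _ => mul_comm _ _
    rw [h2]
    split_ifs
    · rw [map_one]
    · rw [map_zero]
  set V : DChain ℂ n := Pool.Agent.W943.genChain (fun i : Fin n => ((i.val : ℕ) : ℂ))
    (Pool.Agent.H530R2.nodes_injective n)
  have h1 := Nis.det_comp_notMem (k := w) hB a (fun _ => Polynomial.X) ha V (form L)
    (fun i l => C (e i l)) 1 hE (one_notMem V 0) (by simpa only [Polynomial.aeval_X] using h0)
  simp only [Polynomial.aeval_X, zero_add] at h1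
  refine Pool.Agent.H530R2.exists_hit n _ d _ ?_ h1
  exact (totalDegree_det _ (totalDegree_combo L a B)).trans hr

/-- the rank is attained -/
theorem rank_hit {n N N' w d : ℕ} {A : Fin n → Matrix (Fin N) (Fin N') ℂ} (hA : Narrow w A)
    (hd : min N N' ≤ d) (q : Fin n → ℂ) :
    ∃ p ∈ points n (Nis.sd ℂ w w) d,
      (∑ k, q k • A k).rank ≤ (∑ k, (p k : ℂ) • A k).rank := by
  obtain ⟨m, R, a, B, L, hL, ha, hB, hAB⟩ := hA
  obtain ⟨r, hr⟩ : ∃ r, (∑ k, q k • A k).rank = r := ⟨_, rfl⟩
  obtain ⟨P, Q, h1, h2⟩ := Nis.square_reduce (w := w) (C := B) hB (∑ k, q k • A k) hr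
  have hrd : r ≤ d := by
    rw [← hr]
    refine le_trans (le_min ?_ ?_) hd
    · exact Matrix.rank_le_height _
    · exact Matrix.rank_le_width _
  have h3 : ∀ q : Fin n → ℂ, (∑ t, (∑ k, L (a t) k * q k) • (P * B t * Q)) =
      P * (∑ k, q k • A k) * Q := by
    intro q
    simp only [hAB, Finset.smul_sum, Finset.sum_smul, Matrix.mul_sum, Matrix.sum_mul]
    rw [Finset.sum_comm]
    refine Finset.sum_congr rfl fun k _ => Finset.sum_congr rfl fun t _ => ?_
    rw [smul_smul, Matrix.mul_smul, Matrix.smul_mul, mul_comm]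
  have h4 : (Nis.combo (fun t => form L (a t)) (fun t => P * B t * Q)).det ≠ 0 := by
    intro h
    apply h1
    rw [← h3 q, ← eval_combo, h, map_zero]
  obtain ⟨p, hp, h5⟩ := hit L hL a ha _ h2 hrd h4
  refine ⟨p, hp, ?_⟩
  rw [hr]
  rw [eval_combo, h3] at h5
  have h6 : (P * (∑ k, (p k : ℂ) • A k) * Q).rank = r := by
    rw [Matrix.rank_of_isUnit _ ((Matrix.isUnit_iff_isUnit_det _).2 (isUnit_iff_ne_zero.2 h5)),
      Fintype.card_fin]
  calc r = (P * (∑ k, (p k : ℂ) • A k) * Q).rank := h6.symm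
    _ ≤ (P * (∑ k, (p k : ℂ) • A k)).rank := Matrix.rank_mul_le_left _ _
    _ ≤ _ := Matrix.rank_mul_le_right _ _

/-- spaces with a basis of small linear width -/
theorem narrow_of_basis {n N N' R w : ℕ} (A : Fin n → Matrix (Fin N) (Fin N') ℂ)
    (B : Fin R → Matrix (Fin N) (Fin N') ℂ) (hB : LinearIndependent ℂ B)
    (hAB : Submodule.span ℂ (Set.range A) = Submodule.span ℂ (Set.range B)) (hw : LinWidth w B)
    (h1w : 1 ≤ w) : Narrow w A := by
  classical
  have h1 : ∀ k, ∃ c : Fin R → ℂ, ∑ t, c t • B t = A k := fun k => by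
    rw [← Submodule.mem_span_range_iff_exists_fun, ← hAB]
    exact Submodule.subset_span ⟨k, rfl⟩
  have h2 : ∀ t, ∃ c : Fin n → ℂ, ∑ k, c k • A k = B t := fun t => by
    rw [← Submodule.mem_span_range_iff_exists_fun, hAB]
    exact Submodule.subset_span ⟨t, rfl⟩
  choose L hL using h1
  choose G hG using h2
  have h3 : ∀ t s, ∑ k, G t k * L k s = if t = s then 1 else 0 := by
    intro t s
    have h4 : ∑ s, (∑ k, G t k * L k s) • B s = ∑ s, (if t = s then (1 : ℂ) else 0) • B s := by
      rw [show ∑ s, (if t = s then (1 : ℂ) else 0) • B s = B t by simp]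
      rw [← hG t]
      simp only [← hL, Finset.smul_sum, Finset.sum_smul, smul_smul]
      rw [Finset.sum_comm]
    have h5 := linearIndependent_iff'.1 hB Finset.univ
      (fun s => (∑ k, G t k * L k s) - (if t = s then (1 : ℂ) else 0))
      (by simp only [sub_smul, Finset.sum_sub_distrib]; rw [h4, sub_self]) s (Finset.mem_univ s)
    exact sub_eq_zero.1 h5
  refine ⟨R, R, id, B, fun t k => L k t, ?_, fun j => ?_, hw, fun k => (hL k).symm⟩
  · rw [Fintype.linearIndependent_iff]
    intro g hg t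
    have h4 : ∀ k, ∑ s, g s * L k s = 0 := by
      intro k
      have := congrFun hg k
      simpa using this
    have h5 : g t = ∑ k, G t k * ∑ s, g s * L k s := by
      simp only [Finset.mul_sum]
      rw [Finset.sum_comm]
      have h6 : ∀ s, ∑ k, G t k * (g s * L k s) = g s * (if t = s then 1 else 0) := by
        intro s
        rw [← h3 t s, Finset.mul_sum]
        exact Finset.sum_congr rfl fun k _ => by ring
      simp only [h6]
      simp
    rw [h5]
    simp only [h4]
    simp
  · refine le_trans ?_ h1w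
    rw [Finset.card_le_one]
    intro x hx y hy
    rw [(Finset.mem_filter.1 hx).2.trans (Finset.mem_filter.1 hy).2.symm |> fun h => (h : x = y)]

/-- symbolic determinants with integer coefficients -/
theorem det_hit {n N w : ℕ} (A : Fin n → Matrix (Fin N) (Fin N) ℤ)
    (hA : Narrow w (fun k => (A k).map (Int.cast : ℤ → ℂ))) :
    (symbolic A).det ≠ 0 ↔
      ∃ p ∈ points n (Nis.sd ℂ w w) N, (∑ k, p k • A k).det ≠ 0 := by
  classical
  have he : ∀ p : Fin n → ℤ, eval p (symbolic A).det = (∑ k, p k • A k).det := by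
    intro p
    rw [RingHom.map_det]
    congr 1
    ext1 i j
    unfold symbolic
    simp only [RingHom.mapMatrix_apply, Matrix.map_apply, Matrix.sum_apply, Matrix.smul_apply,
      map_sum, smul_eq_mul, map_mul, eval_C, eval_X]
  have hc : ∀ p : Fin n → ℤ, ((∑ k, p k • A k).det : ℂ) =
      (∑ k, (p k : ℂ) • (A k).map (Int.cast : ℤ → ℂ)).det := by
    intro p
    have h1 := RingHom.map_det (Int.castRingHom ℂ) (∑ k, p k • A k)
    rw [eq_intCast] at h1
    rw [h1]
    congr 1
    ext1 i j
    simp only [RingHom.mapMatrix_apply, Matrix.map_apply, Matrix.sum_apply, Matrix.smul_apply,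
      map_sum, smul_eq_mul, map_mul, eq_intCast]
  constructor
  · intro h
    obtain ⟨q, hq⟩ : ∃ q : Fin n → ℤ,
        eval q (symbolic A).det ≠ 0 := by
      by_contra hcon
      push Not at hcon
      exact h (MvPolynomial.funext fun q => by rw [hcon q, map_zero])
    rw [he] at hq
    obtain ⟨p, hp, h1⟩ := rank_hit hA (d := N) (min_le_left _ _) (fun k => (q k : ℂ))
    refine ⟨p, hp, ?_⟩
    have h2 : (∑ k, (q k : ℂ) • (A k).map (Int.cast : ℤ → ℂ)).det ≠ 0 := by
      rw [← hc q]
      exact_mod_cast hq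
    rw [Matrix.rank_of_isUnit _ ((Matrix.isUnit_iff_isUnit_det _).2 (isUnit_iff_ne_zero.2 h2)),
      Fintype.card_fin] at h1
    intro h3
    have h4 : (∑ k, (p k : ℂ) • (A k).map (Int.cast : ℤ → ℂ)).det = 0 := by
      rw [← hc p, h3, Int.cast_zero]
    have h5 : (∑ k, (p k : ℂ) • (A k).map (Int.cast : ℤ → ℂ)).rank = N :=
      le_antisymm (Matrix.rank_le_height _) h1
    have h7 : IsUnit (∑ k, (p k : ℂ) • (A k).map (Int.cast : ℤ → ℂ)) := by
      rw [← Matrix.linearIndependent_rows_iff_isUnit, linearIndependent_iff_card_eq_finrank_span]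
      rw [Fintype.card_fin, Set.finrank, ← Matrix.rank_eq_finrank_span_row, h5]
    rw [Matrix.isUnit_iff_isUnit_det, h4] at h7
    exact not_isUnit_zero h7
  · rintro ⟨p, _, hp⟩ h
    apply hp
    rw [← he, h, map_zero]

/-- There is a function `s` such that for all `w, n, d` the explicit set `points n (s w) d` of at
most `((d+1)(nd+1))^(s w)` integer points, of polynomial bit length, has the following properties.
(1) If the complex `N × N'` matrices `A_0, …, A_{n-1}` are narrow of width `w` and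
`min N N' ≤ d`, then the maximal rank of a linear combination of these matrices is attained at a
point of the set. (2) If the integer `N × N` matrices `A_0, …, A_{n-1}` are narrow of width `w`
over the complex numbers, then `det (∑ x_k A_k)` is nonzero if and only if `det (∑ p_k A_k) ≠ 0`
for a point `p` of `points n (s w) N`. (3) Matrices whose span has a basis of linear width at most
`w` (`w ≥ 1`) are narrow of width `w`. -/
theorem result : ∃ s : ℕ → ℕ,
    (∀ w n d : ℕ,
      (points n (s w) d).card ≤ ((d + 1) * (n * d + 1)) ^ s w ∧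
      (∀ p ∈ points n (s w) d, ∀ i, |p i| ≤ ((s w * d * (n * d + n) ^ (n - 1) : ℕ) : ℤ)) ∧
      ∀ (N N' : ℕ) (A : Fin n → Matrix (Fin N) (Fin N') ℂ), Narrow w A → min N N' ≤ d →
        ∀ q : Fin n → ℂ, ∃ p ∈ points n (s w) d,
          (∑ k, q k • A k).rank ≤ (∑ k, (p k : ℂ) • A k).rank) ∧
    (∀ (w n N : ℕ) (A : Fin n → Matrix (Fin N) (Fin N) ℤ),
      Narrow w (fun k => (A k).map (Int.cast : ℤ → ℂ)) →
      ((symbolic A).det ≠ 0 ↔
        ∃ p ∈ points n (s w) N, (∑ k, p k • A k).det ≠ 0)) ∧
    (∀ (w n N N' R : ℕ) (A : Fin n → Matrix (Fin N) (Fin N') ℂ)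
      (B : Fin R → Matrix (Fin N) (Fin N') ℂ), LinearIndependent ℂ B →
      Submodule.span ℂ (Set.range A) = Submodule.span ℂ (Set.range B) → LinWidth w B → 1 ≤ w →
      Narrow w A) :=
  ⟨fun w => Nis.sd ℂ w w, fun _ n d => ⟨Pool.Agent.H530R2.hitSet_card n _ d,
    fun p hp i => Pool.Agent.H530R2.hitSet_bound n _ d p hp i,
    fun _ _ _ hA hd q => rank_hit hA hd q⟩, fun _ _ _ A hA => det_hit A hA,
    fun _ _ _ _ _ A B h1 h2 h3 h4 => narrow_of_basis A B h1 h2 h3 h4⟩

end Pool.Agent.Results.MP_64d474_lc.HiddenLinearWidth
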