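import Mathlib
import Pool.Agent.W981.Hid.Core

/-!
# Deterministic polynomial time identity testing for matrix spaces close to rank one spanned spaces

Let `K` be a field of characteristic zero and `A_1, …, A_s` matrices with `n` columns over `K` whose
span has codimension at most `c` in a space spanned by matrices of rank at most one.  Neither this
space nor its rank one matrices are known.  Put `A(x) = ∑ x_k A_k` and `𝒜 U = ∑ A_k U`.

We prove that the rank of `A(x)` over `K(x)`, and whether `det A(x) = 0`, is found by a local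
search among the integer points `λ`, with the potential

  `P(λ) = (s + 1) rank A(λ) + dim 𝒜 (ker A(λ))`

and the explicit set of at most `(q + 1) ^ (38 c + 6)` directions

  `d_k = ∑_j y_j ∏_{l ≠ k} (z_j - l)`,  `y_j, z_j ∈ {0, …, q}`,  `j = 1, …, 19 c + 3`,

where `q = (s + 1) n s`.  If no direction increases the potential at `λ` then `A(λ)` has the rank of
`A(x)`.  The potential is at most `(s + 1) n`, so that this happens after so many steps.  The
algorithm uses only the matrices `A_k`.

The proof.  Let `L_h` be `A` at the generic point of `λ +` the set of directions with `h` pairs of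
seeds, over the field of rational functions in the seeds, and let `X_h` be the smallest subspace of
`K ^ n` whose extension contains `ker L_h`.  Since no direction increases the potential, `rank L_h`
and `dim 𝒜 (ker L_h)` do not depend on `h`.  It follows that the dimensions of the spaces `𝒜 X_h`,
which increase with `h`, differ by at most `c`, so `𝒜 X_h = 𝒜 X_{h + 3}` for some `h` between
`16 c` and `19 c`.  The derivatives of `ker L_h` of order up to three in directions with at most
three nonzero coordinates lie in the extension of `X_{h + 3}`.  Let `I` be the set of the rank one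
matrices `u_i v_iᵀ` with `v_i` not orthogonal to `ker L_h`.  The smallest subspace `X` whose
extension contains the derivatives has the property `𝒜 X ≤ span {u_i : i ∈ I}`, and the method of
the block theorem for affine families, applied to the combinations of the `A_k` which are
combinations of the `u_i v_iᵀ` with `i ∈ I`, shows that there is `U₁ ≤ U₂ = X` with
`dim U₂/U₁ ≤ 16 c` so that the pair certifies the rank of `L_h`.  The block of `A(x)` which belongs
to this pair has at most `16 c` columns, and its minors, polynomials of degree at most `16 c`, do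
not vanish at the generic point of the directions with `h` pairs of seeds.  Therefore the pair
certifies that the rank of `A(x)` is at most the rank of `L_h`, which is the rank of `A(λ)`.
-/

set_option autoImplicit false
set_option linter.unusedSectionVars false

open MvPolynomial Matrix Module

namespace Pool.Agent.Results.MP_64d474_lc.HiddenNearRankOneSearch

/-- The matrix `∑ k, x_k A_k` with entries in `K[x_1, …, x_s]`. -/
noncomputable def symbolicMatrix {K m n : Type} [Field K] {s : ℕ} (A : Fin s → Matrix m n K) :
    Matrix m n (MvPolynomial (Fin s) K) :=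
  ∑ k, (X k : MvPolynomial (Fin s) K) • (A k).map C

/-- The rank of `∑ k, x_k A_k` over the field of rational functions. -/
noncomputable def symbolicRank {K m n : Type} [Field K] [Fintype n] {s : ℕ}
    (A : Fin s → Matrix m n K) : ℕ :=
  ((symbolicMatrix A).map (algebraMap (MvPolynomial (Fin s) K)
    (FractionRing (MvPolynomial (Fin s) K)))).rank

/-- The span of the `A_k` is contained, with codimension at most `c`, in a space which is spanned by
matrices of rank at most one. -/
def NearRankOneSpan {K m n : Type} [Field K] [Fintype m] [Fintype n] {s : ℕ}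
    (A : Fin s → Matrix m n K) (c : ℕ) : Prop :=
  ∃ R : Set (Matrix m n K), (∀ T ∈ R, T.rank ≤ 1) ∧ (∀ k, A k ∈ Submodule.span K R) ∧
    finrank K (Submodule.span K R) ≤ finrank K (Submodule.span K (Set.range A)) + c

/-- The matrix `A(λ) = ∑ k, λ_k A_k` at an integer point. -/
noncomputable def valueAt {K m n : Type} [Field K] {s : ℕ} (A : Fin s → Matrix m n K)
    (lam : Fin s → ℤ) : Matrix m n K :=
  ∑ k, (lam k : K) • A k

/-- The subspace `𝒜 U = ∑ k, A_k U`. -/
noncomputable def imageSpace {K m n : Type} [Field K] [Fintype n] {s : ℕ}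
    (A : Fin s → Matrix m n K) (U : Submodule K (n → K)) : Submodule K (m → K) :=
  ⨆ k, U.map (A k).mulVecLin

/-- The potential `(s + 1) rank A(λ) + dim 𝒜 (ker A(λ))`. -/
noncomputable def potential {K m n : Type} [Field K] [Fintype m] [Fintype n] {s : ℕ}
    (A : Fin s → Matrix m n K) (lam : Fin s → ℤ) : ℕ :=
  (s + 1) * (valueAt A lam).rank +
    finrank K (imageSpace A (LinearMap.ker (valueAt A lam).mulVecLin))

/-- The direction with the seeds `y`, `z`: its coordinate `k` is `∑ j, y_j ∏_{l ≠ k} (z_j - l)`,
where `l` runs over `0, …, s - 1`. -/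
def direction {s h : ℕ} (y z : Fin h → ℕ) (k : Fin s) : ℤ :=
  ∑ j, (y j : ℤ) * ∏ l ∈ Finset.univ.erase k, ((z j : ℤ) - ((l : ℕ) : ℤ))

/-- All directions with `h` pairs of seeds in `{0, …, q}`. -/
def directions (s h q : ℕ) : Finset (Fin s → ℤ) :=
  Finset.univ.image fun p : (Fin h → Fin (q + 1)) × (Fin h → Fin (q + 1)) =>
    direction (fun j => (p.1 j : ℕ)) fun j => (p.2 j : ℕ)

/-- The set of directions for `s` matrices with `n` columns and codimension `c`: all directions with
`19 c + 3` pairs of seeds in `{0, …, (s + 1) n s}`. -/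
def testSet (c n s : ℕ) : Finset (Fin s → ℤ) :=
  directions s (19 * c + 3) ((s + 1) * n * s)

/-- No direction of `D` increases the potential at `lam`. -/
def IsStuck {K m n : Type} [Field K] [Fintype m] [Fintype n] {s : ℕ} (A : Fin s → Matrix m n K)
    (D : Finset (Fin s → ℤ)) (lam : Fin s → ℤ) : Prop :=
  ∀ d ∈ D, potential A (lam + d) ≤ potential A lam

/-- The map `next` is a step of the local search: it adds to `lam` some direction of `D` which
increases the potential if there is one, otherwise it does not move. -/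
def IsSearchStep {K m n : Type} [Field K] [Fintype m] [Fintype n] {s : ℕ}
    (A : Fin s → Matrix m n K) (D : Finset (Fin s → ℤ))
    (next : (Fin s → ℤ) → (Fin s → ℤ)) : Prop :=
  ∀ lam, (∃ d ∈ D, next lam = lam + d ∧ potential A lam < potential A (next lam)) ∨
    (next lam = lam ∧ IsStuck A D lam)

section proofs

variable {K m n : Type} [Field K] [Fintype m] [Fintype n] {s : ℕ}

theorem symbolicMatrix_eq [DecidableEq (Fin s)] (A : Fin s → Matrix m n K) :
    symbolicMatrix A = W981.Aff.afs 0 A := by
  rw [symbolicMatrix, W981.Aff.afs, W981.Hyp.sym, Matrix.map_zero _ (map_zero _), zero_add]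

theorem symbolicRank_eq (A : Fin s → Matrix m n K) :
    symbolicRank A = (W981.Aff.gaf 0 A).rank := by
  rw [W981.Aff.rank_gaf, ← symbolicMatrix_eq]
  rfl

theorem valueAt_eq (A : Fin s → Matrix m n K) (lam : Fin s → ℤ) :
    valueAt A lam = W981.Loc.pt 0 A fun k => ((lam k : ℤ) : K) := by
  rw [W981.Loc.pt, zero_add]
  rfl

theorem pt_add (B : Matrix m n K) (A : Fin s → Matrix m n K) (x y : Fin s → K) :
    W981.Loc.pt (W981.Loc.pt B A x) A y = W981.Loc.pt B A fun k => x k + y k := by
  rw [W981.Loc.pt, W981.Loc.pt, W981.Loc.pt, add_assoc, ← Finset.sum_add_distrib]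
  congr 1
  exact Finset.sum_congr rfl fun k _ => (add_smul _ _ _).symm

theorem direction_cast (K : Type) [Field K] {h : ℕ} (y z : Fin h → ℕ) (k : Fin s) :
    ((direction y z k : ℤ) : K) =
      W981.Loc.gp (fun j => (y j : K)) (fun j => (z j : K)) k := by
  simp only [direction, W981.Loc.gp, Int.cast_sum, Int.cast_mul, Int.cast_prod, Int.cast_sub,
    Int.cast_natCast]

theorem potential_eq (A : Fin s → Matrix m n K) (lam : Fin s → ℤ) :
    potential A lam = W981.Hid.pot A (valueAt A lam) := rfl

theorem exists_decomposition (A : Fin s → Matrix m n K) (c : ℕ) (h : NearRankOneSpan A c) :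
    ∃ (N : ℕ) (u : Fin N → m → K) (v : Fin N → n → K) (a : Fin s → Fin N → K),
      (∀ k, A k = ∑ i, a k i • vecMulVec (u i) (v i)) ∧
      Fintype.card (Fin N) ≤ finrank K (W981.Blk.WW a) + c := by
  classical
  obtain ⟨R, hR, hA, hc⟩ := h
  obtain ⟨T, hTR, hTs, -⟩ := Submodule.exists_fun_fin_finrank_span_eq K R
  have huv : ∀ i, ∃ u v, T i = vecMulVec u v := fun i =>
    W981.Hyp.exists_vecMulVec (hR _ (hTR i))
  choose u v huv using huv
  have hA' : ∀ k, ∃ a : Fin (finrank K (Submodule.span K R)) → K,
      ∑ i, a i • T i = A k := by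
    intro k
    have := hA k
    rw [← hTs] at this
    exact (Submodule.mem_span_range_iff_exists_fun K).1 this
  choose a ha using hA'
  refine ⟨_, u, v, a, fun k => ?_, ?_⟩
  · rw [← ha k]
    exact Finset.sum_congr rfl fun i _ => by rw [huv i]
  · rw [Fintype.card_fin]
    refine hc.trans (Nat.add_le_add_right ?_ _)
    have h3 : Submodule.span K (Set.range A) ≤
        (W981.Blk.WW a).map (Fintype.linearCombination K T) := by
      rw [Submodule.span_le]
      rintro _ ⟨k, rfl⟩
      exact ⟨a k, Submodule.subset_span ⟨k, rfl⟩, ha k⟩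
    exact (Submodule.finrank_mono h3).trans (Submodule.finrank_map_le _ _)

theorem rank_eq_of_stuck [CharZero K] (A : Fin s → Matrix m n K) (c : ℕ)
    (hc : NearRankOneSpan A c) (lam : Fin s → ℤ)
    (h : IsStuck A (testSet c (Fintype.card n) s) lam) :
    symbolicRank A = (valueAt A lam).rank := by
  classical
  rw [symbolicRank_eq, valueAt_eq]
  refine le_antisymm ?_ (W981.Aff.gaf_point_le 0 A _)
  have h1 : (W981.Aff.gaf 0 A).rank ≤ (W981.Aff.gaf
      (W981.Loc.pt 0 A fun k => ((lam k : ℤ) : K)) A).rank := by
    obtain ⟨lam', -, h2⟩ := W981.Aff.gaf_special_point 0 A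
    refine h2.trans ?_
    have h3 := W981.Aff.gaf_point_le (W981.Loc.pt 0 A fun k => ((lam k : ℤ) : K))
      A (fun k => (lam' k : K) - ((lam k : ℤ) : K))
    change (W981.Loc.pt (W981.Loc.pt 0 A fun k => ((lam k : ℤ) : K)) A _).rank ≤ _ at h3
    rw [pt_add] at h3
    simp only [add_sub_cancel] at h3
    exact h3
  obtain ⟨N, u, v, a, hA, hN⟩ := exists_decomposition A c hc
  refine h1.trans (W981.Hid.core0 _ A u v a hA hN fun y z hyz => ?_)
  have hb : ∀ j, y j ≤ (s + 1) * Fintype.card n * s ∧ z j ≤ (s + 1) * Fintype.card n * s := by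
    intro j
    have h5 : y j + z j ≤ ∑ j, (y j + z j) := Finset.single_le_sum
      (f := fun j => y j + z j) (fun _ _ => Nat.zero_le _) (Finset.mem_univ j)
    omega
  have h6 := h (direction y z) (by
    refine Finset.mem_image.2 ⟨(fun j => ⟨y j, Nat.lt_succ_of_le (hb j).1⟩,
      fun j => ⟨z j, Nat.lt_succ_of_le (hb j).2⟩), Finset.mem_univ _, rfl⟩)
  rw [potential_eq, potential_eq, valueAt_eq, valueAt_eq] at h6
  have h7 : W981.Loc.pt 0 A (fun k => (((lam + direction y z : Fin s → ℤ) k : ℤ) : K)) =
      W981.Loc.pt (W981.Loc.pt 0 A fun k => ((lam k : ℤ) : K)) A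
        (W981.Loc.gp (fun j => (y j : K)) fun j => (z j : K)) := by
    rw [pt_add]
    congr 1
    funext k
    rw [Pi.add_apply, Int.cast_add, direction_cast]
  rw [h7] at h6
  exact h6

theorem potential_le (A : Fin s → Matrix m n K) (lam : Fin s → ℤ) :
    potential A lam ≤ (s + 1) * Fintype.card n := by
  classical
  rw [potential_eq, ← W981.Hid.rank_opt]
  refine (Matrix.rank_le_card_width _).trans ?_
  rw [Fintype.card_prod, Fintype.card_option, Fintype.card_fin]

theorem stuck_iterate {A : Fin s → Matrix m n K} {D : Finset (Fin s → ℤ)}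
    {next : (Fin s → ℤ) → (Fin s → ℤ)} (h : IsSearchStep A D next)
    (t : ℕ) (lam : Fin s → ℤ) :
    IsStuck A D (next^[t] lam) ∨ potential A lam + t ≤ potential A (next^[t] lam) := by
  induction t with
  | zero => exact Or.inr le_rfl
  | succ t ih =>
    rw [Function.iterate_succ_apply']
    rcases h (next^[t] lam) with ⟨d, -, -, hd2⟩ | ⟨h1, h2⟩
    · rcases ih with ih | ih
      · rcases h (next^[t] lam) with ⟨d', hd', hd'2, hd'3⟩ | ⟨h1, h2⟩
        · have := ih d' hd'
          rw [hd'2] at hd'3
          omega
        · rw [h1]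
          exact Or.inl h2
      · right
        omega
    · rw [h1]
      exact Or.inl h2

theorem stuck_end {A : Fin s → Matrix m n K} {D : Finset (Fin s → ℤ)}
    {next : (Fin s → ℤ) → (Fin s → ℤ)} (h : IsSearchStep A D next)
    (lam : Fin s → ℤ) : IsStuck A D (next^[(s + 1) * Fintype.card n] lam) := by
  rcases stuck_iterate h ((s + 1) * Fintype.card n) lam with h1 | h1
  · exact h1
  · intro d _
    have h2 := potential_le A (next^[(s + 1) * Fintype.card n] lam)
    have h3 := potential_le A (next^[(s + 1) * Fintype.card n] lam + d)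
    omega

theorem exists_step (A : Fin s → Matrix m n K) (D : Finset (Fin s → ℤ)) :
    ∃ next, IsSearchStep A D next := by
  classical
  have h : ∀ lam, ∃ x, (∃ d ∈ D, x = lam + d ∧ potential A lam < potential A x) ∨
      (x = lam ∧ IsStuck A D lam) := by
    intro lam
    by_cases hs : IsStuck A D lam
    · exact ⟨lam, Or.inr ⟨rfl, hs⟩⟩
    · rw [IsStuck] at hs
      push Not at hs
      obtain ⟨d, hd, hd2⟩ := hs
      exact ⟨lam + d, Or.inl ⟨d, hd, rfl, hd2⟩⟩
  choose next hnext using h
  exact ⟨next, hnext⟩

theorem abs_direction_le {h q : ℕ} {y z : Fin h → ℕ} (hy : ∀ j, y j ≤ q) (hz : ∀ j, z j ≤ q)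
    (k : Fin s) : |direction y z k| ≤ ((h * q * (q + s) ^ s : ℕ) : ℤ) := by
  rw [direction]
  refine (Finset.abs_sum_le_sum_abs _ _).trans ?_
  have h1 : ∀ j : Fin h, |(y j : ℤ) * ∏ l ∈ Finset.univ.erase k, ((z j : ℤ) - ((l : ℕ) : ℤ))| ≤
      ((q * (q + s) ^ s : ℕ) : ℤ) := by
    intro j
    rw [abs_mul, Finset.abs_prod]
    have h2 : ∏ l ∈ Finset.univ.erase k, |(z j : ℤ) - ((l : ℕ) : ℤ)| ≤ ((q + s : ℕ) : ℤ) ^ s := by
      calc ∏ l ∈ Finset.univ.erase k, |(z j : ℤ) - ((l : ℕ) : ℤ)|
          ≤ ∏ l ∈ Finset.univ.erase k, ((q + s : ℕ) : ℤ) := by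
            refine Finset.prod_le_prod (fun _ _ => abs_nonneg _) fun l _ => ?_
            have := hz j
            have := l.2
            rw [abs_le]
            constructor <;> push_cast <;> omega
        _ = ((q + s : ℕ) : ℤ) ^ (s - 1) := by
            rw [Finset.prod_const, Finset.card_erase_of_mem (Finset.mem_univ k),
              Finset.card_univ, Fintype.card_fin]
        _ ≤ _ := by
            refine pow_le_pow_right₀ ?_ (Nat.sub_le s 1)
            have := k.2
            push_cast
            omega
    have h3 : |((y j : ℕ) : ℤ)| ≤ (q : ℤ) := by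
      rw [Nat.abs_cast]
      exact_mod_cast hy j
    calc |((y j : ℕ) : ℤ)| * ∏ l ∈ Finset.univ.erase k, |(z j : ℤ) - ((l : ℕ) : ℤ)|
        ≤ (q : ℤ) * ((q + s : ℕ) : ℤ) ^ s :=
          mul_le_mul h3 h2 (Finset.prod_nonneg fun _ _ => abs_nonneg _) (Nat.cast_nonneg q)
      _ = _ := by push_cast; ring
  refine (Finset.sum_le_card_nsmul _ _ _ fun j _ => h1 j).trans ?_
  rw [Finset.card_univ, Fintype.card_fin, nsmul_eq_mul]
  push_cast
  rw [mul_assoc]

theorem abs_le_of_mem {h q : ℕ} {d : Fin s → ℤ} (hd : d ∈ directions s h q) (k : Fin s) :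
    |d k| ≤ ((h * q * (q + s) ^ s : ℕ) : ℤ) := by
  obtain ⟨p, -, rfl⟩ := Finset.mem_image.1 hd
  exact abs_direction_le (fun j => Nat.lt_succ_iff.1 (p.1 j).2)
    (fun j => Nat.lt_succ_iff.1 (p.2 j).2) k

theorem abs_iterate {A : Fin s → Matrix m n K} {h q : ℕ}
    {next : (Fin s → ℤ) → (Fin s → ℤ)} (hn : IsSearchStep A (directions s h q) next)
    (t : ℕ) (k : Fin s) : |next^[t] 0 k| ≤ ((t * (h * q * (q + s) ^ s) : ℕ) : ℤ) := by
  induction t with
  | zero => simp
  | succ t ih =>
    rw [Function.iterate_succ_apply']
    rcases hn (next^[t] 0) with ⟨d, hd, hd2, -⟩ | ⟨h1, -⟩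
    · rw [hd2, Pi.add_apply]
      refine (abs_add_le _ _).trans ((add_le_add ih (abs_le_of_mem hd k)).trans ?_)
      rw [← Nat.cast_add, ← Nat.succ_mul]
    · rw [h1]
      refine ih.trans ?_
      exact_mod_cast Nat.mul_le_mul_right _ (Nat.le_succ t)

theorem card_directions (s h q : ℕ) : (directions s h q).card ≤ (q + 1) ^ (2 * h) := by
  refine Finset.card_image_le.trans ?_
  rw [Finset.card_univ, Fintype.card_prod, Fintype.card_fun, Fintype.card_fin, Fintype.card_fin,
    two_mul, pow_add]

theorem det_iff [DecidableEq n] (A : Fin s → Matrix n n K) (lam : Fin s → ℤ)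
    (h : symbolicRank A = (valueAt A lam).rank) :
    (symbolicMatrix A).det = 0 ↔ (valueAt A lam).det = 0 := by
  have h1 : ∀ {F : Type} [Field F] (N : Matrix n n F), N.det = 0 ↔ N.rank ≠ Fintype.card n := by
    intro F _ N
    rw [← not_iff_not, not_not]
    constructor
    · intro h
      exact Matrix.rank_of_det_ne_zero h
    · intro h h0
      obtain ⟨x, hx, hx2⟩ := Matrix.exists_mulVec_eq_zero_iff.2 h0
      have h2 := W981.Loc.rank_add_ker N
      have h3 : finrank F (LinearMap.ker N.mulVecLin) = 0 := by omega
      rw [Submodule.finrank_eq_zero] at h3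
      have h4 : x ∈ LinearMap.ker N.mulVecLin := hx2
      rw [h3] at h4
      exact hx ((Submodule.mem_bot F).1 h4)
  rw [h1 (valueAt A lam), ← h, symbolicRank, ← h1, ← RingHom.mapMatrix_apply, ← RingHom.map_det,
    FaithfulSMul.algebraMap_eq_zero_iff]

end proofs

/-- **Result.**  Let `K` be a field of characteristic zero, let `A_1, …, A_s` be matrices with `n`
columns over `K` whose span has codimension at most `c` in a space spanned by matrices of rank at
most one, and let `D = testSet c n s`.

(1) `D` has at most `((s + 1) n s + 1) ^ (2 (19 c + 3))` elements.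

(2) If no direction of `D` increases the potential `(s + 1) rank A(λ) + dim 𝒜 (ker A(λ))` at an
integer point `λ` then the rank of `A(λ)` is the rank of `∑ x_k A_k` over `K(x)`.

(3) Let `next` be a step of the local search.  The point `next^[T] 0` which is reached after
`T = (s + 1) n` steps has the property that the rank of the value of `A` is the rank of
`∑ x_k A_k`, and its coordinates are bounded by `T (19 c + 3) q (q + s) ^ s` with
`q = (s + 1) n s`.

(4) If the matrices are square then `det ∑ x_k A_k = 0` if and only if `det A(λ) = 0` for the point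
`λ` of (3).

(5) The hypothesis on the span holds if `∑ (rank A_k - 1) ≤ c`. -/
theorem result {K : Type} [Field K] [CharZero K] (c s : ℕ) :
    (∀ n : ℕ, (testSet c n s).card ≤ ((s + 1) * n * s + 1) ^ (2 * (19 * c + 3))) ∧
    (∀ {m n : Type} [Fintype m] [Fintype n] (A : Fin s → Matrix m n K), NearRankOneSpan A c →
      (∀ lam : Fin s → ℤ, IsStuck A (testSet c (Fintype.card n) s) lam →
        (valueAt A lam).rank = symbolicRank A) ∧
      (∃ next, IsSearchStep A (testSet c (Fintype.card n) s) next) ∧
      ∀ next, IsSearchStep A (testSet c (Fintype.card n) s) next →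
        (valueAt A (next^[(s + 1) * Fintype.card n] 0)).rank = symbolicRank A ∧
        ∀ k, |next^[(s + 1) * Fintype.card n] 0 k| ≤ (((s + 1) * Fintype.card n *
          ((19 * c + 3) * ((s + 1) * Fintype.card n * s) *
            ((s + 1) * Fintype.card n * s + s) ^ s) : ℕ) : ℤ)) ∧
    (∀ {n : Type} [Fintype n] [DecidableEq n] (A : Fin s → Matrix n n K),
      NearRankOneSpan A c → ∀ next : (Fin s → ℤ) → (Fin s → ℤ),
      IsSearchStep A (testSet c (Fintype.card n) s) next →
      ((symbolicMatrix A).det = 0 ↔
        (valueAt A (next^[(s + 1) * Fintype.card n] 0)).det = 0)) ∧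
    (∀ {m n : Type} [Fintype m] [Fintype n] (A : Fin s → Matrix m n K),
      ∑ k, ((A k).rank - 1) ≤ c → NearRankOneSpan A c) := by
  refine ⟨fun n => card_directions _ _ _, fun A hA => ⟨fun lam h =>
    (rank_eq_of_stuck A c hA lam h).symm, exists_step _ _, fun next h =>
    ⟨(rank_eq_of_stuck A c hA _ (stuck_end h 0)).symm, fun k => abs_iterate h _ k⟩⟩, ?_,
    fun A h => W981.Blk.near_of_ranks A c h⟩
  intro n _ _ A hA next h
  exact det_iff _ _ (rank_eq_of_stuck A c hA _ (stuck_end h 0))

end Pool.Agent.Results.MP_64d474_lc.HiddenNearRankOneSearch
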